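import Mathlib

/-!
Bent functions and bent iterative functions: Walsh transforms of the four pieces, and the
inequalities `|B_{n-2}|^2 ≤ |BI_n| ≤ |B_{n-2}|^3`, `|BI_n| ≤ |B_n|`.
-/

namespace Pool.Agent.R646.BentF

open Finset

/-- the space of binary vectors of length `n` -/
abbrev Pt (n : ℕ) : Type := Fin n → ZMod 2

/-- Boolean functions in `n` variables -/
abbrev BF (n : ℕ) : Type := Pt n → ZMod 2

/-- the sign `(-1)^a` -/
def sgn (a : ZMod 2) : ℤ := if a = 0 then 1 else -1

/-- the Walsh-Hadamard transform -/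
def walsh {n : ℕ} (f : BF n) (y : Pt n) : ℤ := ∑ x : Pt n, sgn (f x + ∑ i, x i * y i)

/-- bent functions in `2m` variables -/
def Bent (m : ℕ) (f : BF (2 * m)) : Prop := ∀ y, |walsh f y| = 2 ^ m

/-- the dual of a bent function `f`: `W_f(y) = 2^m (-1)^(dual f y)` -/
noncomputable def dual (m : ℕ) (f : BF (2 * m)) : BF (2 * m) :=
  fun y => if walsh f y = 2 ^ m then 0 else 1

/-- the four pieces `x ↦ g(a, b, x)` of a function in `2m+2` variables -/
def slice {m : ℕ} (g : BF (2 * (m + 1))) (a b : ZMod 2) : BF (2 * m) :=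
  fun x => g (Fin.cons a (Fin.cons b x : Fin (2 * m + 1) → ZMod 2) : Fin (2 * m + 1 + 1) → ZMod 2)

/-- bent iterative functions in `2m+2` variables -/
def BentIter (m : ℕ) (g : BF (2 * (m + 1))) : Prop :=
  Bent m (slice g 0 0) ∧ Bent m (slice g 0 1) ∧ Bent m (slice g 1 0) ∧ Bent m (slice g 1 1) ∧
    ∀ y, dual m (slice g 0 0) y + dual m (slice g 0 1) y + dual m (slice g 1 0) y +
      dual m (slice g 1 1) y = 1

/-- the number of bent functions in `2m` variables -/
noncomputable def numBent (m : ℕ) : ℕ := Nat.card {f : BF (2 * m) // Bent m f}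

/-- the number of bent iterative functions in `2m+2` variables -/
noncomputable def numBentIter (m : ℕ) : ℕ := Nat.card {g : BF (2 * (m + 1)) // BentIter m g}

theorem zmod2_cases (a : ZMod 2) : a = 0 ∨ a = 1 := by
  revert a; decide

theorem sgn_add (a b : ZMod 2) : sgn (a + b) = sgn a * sgn b := by
  revert a b; unfold sgn; decide

theorem sgn_sq (a : ZMod 2) : sgn a * sgn a = 1 := by
  revert a; unfold sgn; decide

theorem sgn_inj {a b : ZMod 2} (h : sgn a = sgn b) : a = b := by
  revert a b; unfold sgn; decide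

theorem sgn_abs (a : ZMod 2) : |sgn a| = 1 := by
  revert a; unfold sgn; decide

theorem sgn_sum {ι : Type*} (s : Finset ι) (f : ι → ZMod 2) :
    sgn (∑ i ∈ s, f i) = ∏ i ∈ s, sgn (f i) := by
  classical
  induction s using Finset.induction_on with
  | empty => simp [sgn]
  | insert a s ha ih => rw [Finset.sum_insert ha, Finset.prod_insert ha, sgn_add, ih]

theorem walsh_dual {m : ℕ} {f : BF (2 * m)} (hf : Bent m f) (y : Pt (2 * m)) :
    walsh f y = 2 ^ m * sgn (dual m f y) := by
  unfold dual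
  have h := hf y
  split_ifs with h1
  · simp [sgn, h1]
  · have : walsh f y = -(2 ^ m) := by
      rcases abs_eq (by positivity : (0 : ℤ) ≤ 2 ^ m) |>.mp h with h2 | h2
      · exact absurd h2 h1
      · exact h2
    simp [sgn, this]

theorem dual_eq {m : ℕ} {f : BF (2 * m)} {y : Pt (2 * m)} {a : ZMod 2}
    (h : walsh f y = 2 ^ m * sgn a) : dual m f y = a := by
  unfold dual
  rcases zmod2_cases a with rfl | rfl
  · simp [sgn] at h; simp [h]
  · have h3 : walsh f y ≠ 2 ^ m := by
      rw [h]; simp [sgn]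
      have : (0 : ℤ) < 2 ^ m := by positivity
      intro h4; linarith
    simp [h3]

/-- summation over a vector with one more coordinate -/
theorem sum_cons {n : ℕ} (F : (Fin (n + 1) → ZMod 2) → ℤ) :
    ∑ x, F x = ∑ a : ZMod 2, ∑ x : Fin n → ZMod 2, F (Fin.cons a x) := by
  rw [← Equiv.sum_comp (Fin.consEquiv (fun _ : Fin (n + 1) => ZMod 2)), Fintype.sum_prod_type]
  rfl

theorem sum_zmod2 (F : ZMod 2 → ℤ) : ∑ a, F a = F 0 + F 1 := by
  rw [show (Finset.univ : Finset (ZMod 2)) = {0, 1} from by decide]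
  rw [Finset.sum_insert (by decide), Finset.sum_singleton]

/-- the Walsh transform in terms of the four pieces -/
theorem walsh_slice {m : ℕ} (g : BF (2 * (m + 1))) (c d : ZMod 2) (y : Pt (2 * m)) :
    walsh g (Fin.cons c (Fin.cons d y : Fin (2 * m + 1) → ZMod 2) : Fin (2 * m + 1 + 1) → ZMod 2) =
      walsh (slice g 0 0) y + sgn d * walsh (slice g 0 1) y + sgn c * walsh (slice g 1 0) y +
        sgn c * sgn d * walsh (slice g 1 1) y := by
  unfold walsh
  change ∑ x : Fin (2 * m + 1 + 1) → ZMod 2, _ = _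
  rw [sum_cons, sum_zmod2, sum_cons, sum_cons, sum_zmod2, sum_zmod2]
  have key : ∀ a b : ZMod 2, ∑ x : Fin (2 * m) → ZMod 2,
      sgn (g (Fin.cons a (Fin.cons b x : Fin (2 * m + 1) → ZMod 2) : Fin (2 * m + 1 + 1) → ZMod 2) +
        ∑ i : Fin (2 * m + 1 + 1), (Fin.cons a (Fin.cons b x : Fin (2 * m + 1) → ZMod 2) : Fin (2 * m + 1 + 1) → ZMod 2) i *
          (Fin.cons c (Fin.cons d y : Fin (2 * m + 1) → ZMod 2) : Fin (2 * m + 1 + 1) → ZMod 2) i) =
      sgn (a * c) * sgn (b * d) * ∑ x : Pt (2 * m), sgn (slice g a b x + ∑ i, x i * y i) := by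
    intro a b
    rw [Finset.mul_sum]
    apply Finset.sum_congr rfl
    intro x _
    rw [Fin.sum_univ_succ, Fin.sum_univ_succ]
    simp only [Fin.cons_zero, Fin.cons_succ]
    rw [← sgn_add, ← sgn_add]
    congr 1
    unfold slice
    ring
  have k00 := key 0 0
  have k01 := key 0 1
  have k10 := key 1 0
  have k11 := key 1 1
  have e0 : sgn 0 = 1 := by simp [sgn]
  simp only [zero_mul, one_mul, mul_one, e0] at k00 k01 k10 k11
  rw [← k00, ← k01, ← k10, ← k11]
  ring!

theorem four_signs (a b c d : ZMod 2) (h : a + b + c + d = 1) :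
    |sgn a + sgn b + sgn c + sgn d| = 2 := by
  revert a b c d; unfold sgn; decide

theorem cons_eta {n : ℕ} (y : Fin (n + 1 + 1) → ZMod 2) :
    y = Fin.cons (y 0) (Fin.cons (y 1) (fun i => y i.succ.succ) : Fin (n + 1) → ZMod 2) := by
  funext i
  refine Fin.cases ?_ (fun j => ?_) i
  · simp
  · refine Fin.cases ?_ (fun k => ?_) j
    · simp
    · simp

/-- every bent iterative function is bent -/
theorem BentIter.bent {m : ℕ} {g : BF (2 * (m + 1))} (h : BentIter m g) : Bent (m + 1) g := by
  obtain ⟨h0, h1, h2, h3, hd⟩ := h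
  intro y
  have hy := cons_eta (n := 2 * m) y
  have e : walsh g y = walsh g (Fin.cons (y 0) (Fin.cons (y 1) (fun i : Fin (2 * m) => y i.succ.succ) : Fin (2 * m + 1) → ZMod 2) : Fin (2 * m + 1 + 1) → ZMod 2) :=
    congrArg (walsh g) hy
  rw [e, walsh_slice, walsh_dual h0, walsh_dual h1, walsh_dual h2, walsh_dual h3]
  set z : Pt (2 * m) := fun i : Fin (2 * m) => y i.succ.succ
  set c := y 0
  set d := y 1
  have hz := hd z
  have : (2 : ℤ) ^ m * sgn (dual m (slice g 0 0) z) + sgn d * (2 ^ m * sgn (dual m (slice g 0 1) z)) +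
      sgn c * (2 ^ m * sgn (dual m (slice g 1 0) z)) +
      sgn c * sgn d * (2 ^ m * sgn (dual m (slice g 1 1) z)) =
      2 ^ m * (sgn (dual m (slice g 0 0) z) + sgn (d + dual m (slice g 0 1) z) +
        sgn (c + dual m (slice g 1 0) z) + sgn (c + d + dual m (slice g 1 1) z)) := by
    simp only [sgn_add]; ring
  rw [this, abs_mul, four_signs]
  · rw [abs_of_pos (by positivity), pow_succ]
  · have h4 : ∀ c d p q r s : ZMod 2, p + q + r + s = 1 →
        p + (d + q) + (c + r) + (c + d + s) = 1 := by decide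
    exact h4 _ _ _ _ _ _ hz

theorem walsh_add_one {n : ℕ} (f : BF n) (y : Pt n) : walsh (fun x => f x + 1) y = - walsh f y := by
  unfold walsh
  rw [← Finset.sum_neg_distrib]
  apply Finset.sum_congr rfl
  intro x _
  have : sgn (f x + 1 + ∑ i, x i * y i) = sgn ((f x + ∑ i, x i * y i) + 1) := by
    congr 1; ring
  rw [this, sgn_add]
  simp [sgn]

theorem Bent.add_one {m : ℕ} {f : BF (2 * m)} (h : Bent m f) : Bent m (fun x => f x + 1) := by
  intro y
  rw [walsh_add_one, abs_neg]
  exact h y

theorem dual_add_one {m : ℕ} {f : BF (2 * m)} (h : Bent m f) (y : Pt (2 * m)) :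
    dual m (fun x => f x + 1) y = dual m f y + 1 := by
  apply dual_eq
  rw [walsh_add_one, walsh_dual h, sgn_add]
  simp [sgn]

/-- the function made of `f` and `h` -/
def glue {m : ℕ} (f h : BF (2 * m)) : BF (2 * (m + 1)) :=
  fun x => if x (1 : Fin (2 * m + 1 + 1)) = 0 then f (fun i => x (i.succ.succ : Fin (2 * m + 1 + 1)))
    else h (fun i => x (i.succ.succ : Fin (2 * m + 1 + 1))) + x (0 : Fin (2 * m + 1 + 1))

theorem slice_glue {m : ℕ} (f h : BF (2 * m)) (a b : ZMod 2) :
    slice (glue f h) a b = if b = 0 then f else fun x => h x + a := by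
  funext x
  unfold slice glue
  have e1 : (Fin.cons a (Fin.cons b x : Fin (2 * m + 1) → ZMod 2) : Fin (2 * m + 1 + 1) → ZMod 2) 1 = b := by
    rw [show (1 : Fin (2 * m + 1 + 1)) = Fin.succ 0 from rfl, Fin.cons_succ, Fin.cons_zero]
  simp only [e1, Fin.cons_succ, Fin.cons_zero]
  split_ifs <;> rfl

theorem glue_iter {m : ℕ} {f h : BF (2 * m)} (hf : Bent m f) (hh : Bent m h) :
    BentIter m (glue f h) := by
  have e00 : slice (glue f h) 0 0 = f := by rw [slice_glue]; simp
  have e10 : slice (glue f h) 1 0 = f := by rw [slice_glue]; simp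
  have e01 : slice (glue f h) 0 1 = h := by rw [slice_glue]; simp
  have e11 : slice (glue f h) 1 1 = fun x => h x + 1 := by rw [slice_glue]; simp
  unfold BentIter
  rw [e00, e10, e01, e11]
  refine ⟨hf, hh, hf, hh.add_one, ?_⟩
  intro y
  rw [dual_add_one hh]
  have : ∀ a b : ZMod 2, a + b + a + (b + 1) = 1 := by decide
  exact this _ _

theorem numBent_sq_le (m : ℕ) : numBent m ^ 2 ≤ numBentIter m := by
  unfold numBent numBentIter
  rw [sq, ← Nat.card_prod]
  refine Nat.card_le_card_of_injective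
    (fun p : {f : BF (2 * m) // Bent m f} × {f : BF (2 * m) // Bent m f} =>
      (⟨glue p.1.1 p.2.1, glue_iter p.1.2 p.2.2⟩ : {g : BF (2 * (m + 1)) // BentIter m g})) ?_
  rintro ⟨⟨f, hf⟩, ⟨h, hh⟩⟩ ⟨⟨f', hf'⟩, ⟨h', hh'⟩⟩ e
  have e' : glue f h = glue f' h' := congrArg Subtype.val e
  have a0 : slice (glue f h) 0 0 = slice (glue f' h') 0 0 := by rw [e']
  have a1 : slice (glue f h) 0 1 = slice (glue f' h') 0 1 := by rw [e']
  rw [slice_glue, slice_glue] at a0 a1
  simp only [if_true, add_zero, if_neg (one_ne_zero : (1 : ZMod 2) ≠ 0)] at a0 a1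
  have a2 : h = h' := a1
  subst a0
  subst a2
  rfl

theorem numBentIter_le (m : ℕ) : numBentIter m ≤ numBent (m + 1) := by
  unfold numBent numBentIter
  refine Nat.card_le_card_of_injective
    (fun g : {g : BF (2 * (m + 1)) // BentIter m g} =>
      (⟨g.1, g.2.bent⟩ : {f : BF (2 * (m + 1)) // Bent (m + 1) f})) ?_
  intro g h e
  exact Subtype.ext (Subtype.mk.inj e)

/-- orthogonality of characters -/
theorem sum_char {n : ℕ} (z : Pt n) :
    ∑ y : Pt n, sgn (∑ i, z i * y i) = if z = 0 then 2 ^ n else 0 := by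
  have h1 : ∑ y : Pt n, sgn (∑ i, z i * y i) = ∏ i : Fin n, ∑ t : ZMod 2, sgn (z i * t) := by
    rw [Finset.prod_univ_sum, Fintype.piFinset_univ]
    apply Finset.sum_congr rfl
    intro y _
    rw [sgn_sum]
  rw [h1]
  have h2 : ∀ a : ZMod 2, ∑ t : ZMod 2, sgn (a * t) = if a = 0 then 2 else 0 := by
    unfold sgn; decide
  simp only [h2]
  split_ifs with h
  · subst h
    simp
  · obtain ⟨i, hi⟩ : ∃ i, z i ≠ 0 := by
      by_contra hc
      push Not at hc
      exact h (funext hc)
    exact Finset.prod_eq_zero (Finset.mem_univ i) (by simp [hi])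

/-- a function is determined by its Walsh transform -/
theorem walsh_injective {n : ℕ} {f g : BF n} (h : ∀ y, walsh f y = walsh g y) : f = g := by
  have inv : ∀ (f : BF n) (x : Pt n),
      ∑ y : Pt n, walsh f y * sgn (∑ i, x i * y i) = 2 ^ n * sgn (f x) := by
    intro f x
    have h1 : ∀ y : Pt n, walsh f y * sgn (∑ i, x i * y i) =
        ∑ x' : Pt n, sgn (f x') * sgn (∑ i, (x' i + x i) * y i) := by
      intro y
      unfold walsh
      rw [Finset.sum_mul]
      apply Finset.sum_congr rfl
      intro x' _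
      rw [sgn_add, mul_assoc, ← sgn_add, ← Finset.sum_add_distrib]
      congr 2
      apply Finset.sum_congr rfl
      intro i _
      ring
    simp only [h1]
    rw [Finset.sum_comm]
    simp only [← Finset.mul_sum]
    have h2 : ∀ x' : Pt n, ∑ y : Pt n, sgn (∑ i, (x' i + x i) * y i) =
        if x' = x then 2 ^ n else 0 := by
      intro x'
      have h3 := sum_char (fun i => x' i + x i)
      rw [h3]
      have h4 : ((fun i => x' i + x i) = (0 : Pt n)) ↔ x' = x := by
        have h5 : ∀ a b : ZMod 2, a + b = 0 ↔ a = b := by decide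
        constructor
        · intro h6
          funext i
          exact (h5 _ _).1 (congrFun h6 i)
        · intro h6
          funext i
          exact (h5 _ _).2 (congrFun h6 i)
      simp only [h4]
    simp only [h2]
    simp [mul_comm]
  funext x
  apply sgn_inj
  have h1 := inv f x
  have h2 := inv g x
  simp only [h] at h1
  have h3 : (2 : ℤ) ^ n * sgn (f x) = 2 ^ n * sgn (g x) := by rw [← h1, ← h2]
  exact mul_left_cancel₀ (by positivity) h3

theorem bent_eq_of_dual {m : ℕ} {f g : BF (2 * m)} (hf : Bent m f) (hg : Bent m g)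
    (h : ∀ y, dual m f y = dual m g y) : f = g := by
  apply walsh_injective
  intro y
  rw [walsh_dual hf, walsh_dual hg, h]

theorem slice_ext {m : ℕ} {g h : BF (2 * (m + 1))} (H : ∀ a b, slice g a b = slice h a b) :
    g = h := by
  funext x
  have hx := cons_eta (n := 2 * m) x
  have := congrFun (H (x (0 : Fin (2 * m + 1 + 1))) (x (1 : Fin (2 * m + 1 + 1))))
    (fun i : Fin (2 * m) => x (i.succ.succ : Fin (2 * m + 1 + 1)))
  unfold slice at this
  rw [← hx] at this
  exact this

theorem numBentIter_le_cube (m : ℕ) : numBentIter m ≤ numBent m ^ 3 := by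
  unfold numBent numBentIter
  rw [show ∀ k : ℕ, k ^ 3 = k * (k * k) from fun k => by ring, ← Nat.card_prod, ← Nat.card_prod]
  refine Nat.card_le_card_of_injective
    (fun g : {g : BF (2 * (m + 1)) // BentIter m g} =>
      ((⟨slice g.1 0 0, g.2.1⟩, ⟨slice g.1 0 1, g.2.2.1⟩, ⟨slice g.1 1 0, g.2.2.2.1⟩) :
        {f : BF (2 * m) // Bent m f} × {f : BF (2 * m) // Bent m f} ×
          {f : BF (2 * m) // Bent m f})) ?_
  rintro ⟨g, hg⟩ ⟨h, hh⟩ e
  simp only [Prod.mk.injEq, Subtype.mk.injEq] at e
  obtain ⟨e0, e1, e2⟩ := e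
  apply Subtype.ext
  change g = h
  have e3 : slice g 1 1 = slice h 1 1 := by
    apply bent_eq_of_dual hg.2.2.2.1 hh.2.2.2.1
    intro y
    have a := hg.2.2.2.2 y
    have b := hh.2.2.2.2 y
    rw [e0, e1, e2] at a
    exact add_left_cancel (a.trans b.symm)
  apply slice_ext
  intro a b
  rcases zmod2_cases a with rfl | rfl <;> rcases zmod2_cases b with rfl | rfl
  · exact e0
  · exact e1
  · exact e2
  · exact e3

theorem numBent_zero : 2 ≤ numBent 0 := by
  have h : Nat.card (ZMod 2) ≤ numBent 0 := by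
    unfold numBent
    refine Nat.card_le_card_of_injective
      (fun c : ZMod 2 => (⟨fun _ => c, ?_⟩ : {f : BF (2 * 0) // Bent 0 f})) ?_
    · intro y
      unfold walsh
      have h0 : ∀ x : Pt (2 * 0), x = 0 := fun x => funext (fun i : Fin (2 * 0) => Fin.elim0 i)
      have : (Finset.univ : Finset (Pt (2 * 0))) = {0} := by
        ext x
        rw [h0 x]
        exact iff_of_true (Finset.mem_univ _) (Finset.mem_singleton.2 rfl)
      rw [this, Finset.sum_singleton, sgn_abs]
      norm_num
    · intro a b e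
      have := congrArg Subtype.val e
      exact congrFun this 0
  simpa using h

theorem numBent_le (m : ℕ) : numBent m ≤ 2 ^ 2 ^ (2 * m) := by
  have h : numBent m ≤ Nat.card (BF (2 * m)) := by
    unfold numBent
    exact Nat.card_le_card_of_injective Subtype.val Subtype.val_injective
  refine h.trans (le_of_eq ?_)
  rw [Nat.card_eq_fintype_card, Fintype.card_fun, Fintype.card_fun, ZMod.card, Fintype.card_fin]

end Pool.Agent.R646.BentF
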