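import Mathlib
import Pool.Agent.R646.Bent.Basic

/-!
Growth of the iterated logarithms of the numbers of bent and bent iterative functions.
-/

namespace Pool.Agent.R646.BentF

open Finset Filter Topology

/-- `log log |B_{2m}|` -/
noncomputable def aa (m : ℕ) : ℝ := Real.logb 2 (Real.logb 2 (numBent m))

/-- `log log |BI_{2m+2}|` -/
noncomputable def bb (m : ℕ) : ℝ := Real.logb 2 (Real.logb 2 (numBentIter m))

theorem two_le_numBent (m : ℕ) : 2 ≤ numBent m := by
  induction m with
  | zero => exact numBent_zero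
  | succ m ih =>
    have h1 := numBent_sq_le m
    have h2 := numBentIter_le m
    nlinarith

theorem one_le_log (m : ℕ) : 1 ≤ Real.logb 2 (numBent m) := by
  have h : (2 : ℝ) ≤ numBent m := by exact_mod_cast two_le_numBent m
  rw [Real.le_logb_iff_rpow_le (by norm_num) (by linarith)]
  simpa using h

theorem log_iter_ge (m : ℕ) : 2 * Real.logb 2 (numBent m) ≤ Real.logb 2 (numBentIter m) := by
  have h : ((numBent m : ℝ)) ^ 2 ≤ numBentIter m := by exact_mod_cast numBent_sq_le m
  have h2 : (2 : ℝ) ≤ numBent m := by exact_mod_cast two_le_numBent m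
  have h3 := Real.logb_le_logb_of_le (b := 2) (by norm_num) (by positivity) h
  rwa [Real.logb_pow, Nat.cast_ofNat] at h3

theorem log_iter_le (m : ℕ) : Real.logb 2 (numBentIter m) ≤ Real.logb 2 (numBent (m + 1)) := by
  have h : ((numBentIter m : ℝ)) ≤ numBent (m + 1) := by exact_mod_cast numBentIter_le m
  have h1 : ((numBent m : ℝ)) ^ 2 ≤ numBentIter m := by exact_mod_cast numBent_sq_le m
  have h2 : (2 : ℝ) ≤ numBent m := by exact_mod_cast two_le_numBent m
  exact Real.logb_le_logb_of_le (by norm_num) (by nlinarith) h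

theorem log_iter_cube (m : ℕ) : Real.logb 2 (numBentIter m) ≤ 3 * Real.logb 2 (numBent m) := by
  have h : ((numBentIter m : ℝ)) ≤ (numBent m : ℝ) ^ 3 := by exact_mod_cast numBentIter_le_cube m
  have h1 : ((numBent m : ℝ)) ^ 2 ≤ numBentIter m := by exact_mod_cast numBent_sq_le m
  have h2 : (2 : ℝ) ≤ numBent m := by exact_mod_cast two_le_numBent m
  have h3 := Real.logb_le_logb_of_le (b := 2) (by norm_num) (by nlinarith) h
  rwa [Real.logb_pow, Nat.cast_ofNat] at h3

theorem log_le (m : ℕ) : Real.logb 2 (numBent m) ≤ 2 ^ (2 * m) := by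
  have h : ((numBent m : ℝ)) ≤ 2 ^ 2 ^ (2 * m) := by exact_mod_cast numBent_le m
  have h2 : (2 : ℝ) ≤ numBent m := by exact_mod_cast two_le_numBent m
  have h3 := Real.logb_le_logb_of_le (b := 2) (by norm_num) (by linarith) h
  rw [Real.logb_pow, Real.logb_self_eq_one (by norm_num), mul_one] at h3
  push_cast at h3
  exact h3

theorem bb_ge (m : ℕ) : aa m + 1 ≤ bb m := by
  have h1 := one_le_log m
  have h2 := log_iter_ge m
  have h3 := Real.logb_le_logb_of_le (b := 2) (by norm_num) (by linarith) h2
  rw [Real.logb_mul (by norm_num) (by linarith), Real.logb_self_eq_one (by norm_num)] at h3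
  unfold aa bb
  linarith

theorem bb_le (m : ℕ) : bb m ≤ aa (m + 1) := by
  have h1 := one_le_log m
  have h2 := log_iter_ge m
  exact Real.logb_le_logb_of_le (by norm_num) (by linarith) (log_iter_le m)

theorem bb_le_add (m : ℕ) : bb m ≤ aa m + 2 := by
  have h1 := one_le_log m
  have h2 := log_iter_ge m
  have h4 : Real.logb 2 (numBentIter m) ≤ 4 * Real.logb 2 (numBent m) := by
    have := log_iter_cube m
    linarith
  have h3 := Real.logb_le_logb_of_le (b := 2) (by norm_num) (by linarith) h4
  rw [Real.logb_mul (by norm_num) (by linarith),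
    show (4 : ℝ) = 2 ^ (2 : ℕ) from by norm_num, Real.logb_pow,
    Real.logb_self_eq_one (by norm_num)] at h3
  unfold aa bb
  push_cast at h3
  linarith

theorem aa_succ (m : ℕ) : aa m + 1 ≤ aa (m + 1) := (bb_ge m).trans (bb_le m)

theorem aa_zero : 0 ≤ aa 0 := Real.logb_nonneg (by norm_num) (one_le_log 0)

theorem aa_ge (m : ℕ) : (m : ℝ) ≤ aa m := by
  induction m with
  | zero => simpa using aa_zero
  | succ m ih =>
    have := aa_succ m
    push_cast
    linarith

theorem aa_le (m : ℕ) : aa m ≤ 2 * m := by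
  have h1 := one_le_log m
  have h3 := Real.logb_le_logb_of_le (b := 2) (by norm_num) (by linarith) (log_le m)
  rw [Real.logb_pow, Real.logb_self_eq_one (by norm_num)] at h3
  unfold aa
  push_cast at h3
  linarith

/-- the ratio of the question, for `n = 2m + 2` -/
noncomputable def rr (m : ℕ) : ℝ := bb m / aa (m + 1)

theorem aa_succ_pos (m : ℕ) : 0 < aa (m + 1) := by
  have := aa_ge (m + 1)
  push_cast at this
  have h : (0 : ℝ) ≤ m := Nat.cast_nonneg m
  linarith

theorem rr_le_one (m : ℕ) : rr m ≤ 1 := by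
  unfold rr
  rw [div_le_one (aa_succ_pos m)]
  exact bb_le m

theorem tendsto_inv_aa (c : ℝ) : Tendsto (fun m : ℕ => c / aa (m + 1)) atTop (𝓝 0) := by
  have h1 : Tendsto (fun m : ℕ => aa (m + 1)) atTop atTop := by
    refine tendsto_atTop_mono (f := fun m : ℕ => (m : ℝ)) ?_ tendsto_natCast_atTop_atTop
    intro m
    have := aa_ge (m + 1)
    push_cast at this
    linarith
  exact Tendsto.div_atTop tendsto_const_nhds h1

/-- the limit of the question is one iff `log log |B_{n-2}| / log log |B_n|` tends to one -/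
theorem tendsto_iff :
    Tendsto rr atTop (𝓝 1) ↔ Tendsto (fun m : ℕ => aa m / aa (m + 1)) atTop (𝓝 1) := by
  constructor
  · intro h
    have h2 : Tendsto (fun m : ℕ => rr m - 2 / aa (m + 1)) atTop (𝓝 1) := by
      simpa using h.sub (tendsto_inv_aa 2)
    refine tendsto_of_tendsto_of_tendsto_of_le_of_le h2 tendsto_const_nhds ?_ ?_
    · intro m
      change bb m / aa (m + 1) - 2 / aa (m + 1) ≤ aa m / aa (m + 1)
      rw [← sub_div]
      apply div_le_div_of_nonneg_right _ (aa_succ_pos m).le
      have := bb_le_add m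
      linarith
    · intro m
      rw [div_le_one (aa_succ_pos m)]
      have := aa_succ m
      linarith
  · intro h
    refine tendsto_of_tendsto_of_tendsto_of_le_of_le h tendsto_const_nhds ?_ ?_
    · intro m
      change aa m / aa (m + 1) ≤ bb m / aa (m + 1)
      apply div_le_div_of_nonneg_right _ (aa_succ_pos m).le
      have := bb_ge m
      linarith
    · intro m
      exact rr_le_one m

/-- regular growth of the number of bent functions implies that the limit is one -/
theorem tendsto_of_regular {c : ℝ} (h : Tendsto (fun m : ℕ => aa m / m) atTop (𝓝 c)) :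
    Tendsto rr atTop (𝓝 1) := by
  rw [tendsto_iff]
  have hc : 1 ≤ c := by
    refine ge_of_tendsto h ?_
    filter_upwards [eventually_gt_atTop 0] with m hm
    have hm' : (0 : ℝ) < m := by exact_mod_cast hm
    rw [le_div_iff₀ hm', one_mul]
    exact aa_ge m
  have h1 : Tendsto (fun m : ℕ => aa (m + 1) / ((m + 1 : ℕ) : ℝ)) atTop (𝓝 c) :=
    h.comp (tendsto_add_atTop_nat 1)
  have h2 : Tendsto (fun m : ℕ => (aa m / m) / (aa (m + 1) / ((m + 1 : ℕ) : ℝ))) atTop
      (𝓝 (c / c)) := h.div h1 (by linarith)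
  rw [div_self (by linarith)] at h2
  have h3 : Tendsto (fun m : ℕ => (m : ℝ) / ((m : ℝ) + 1)) atTop (𝓝 1) :=
    tendsto_natCast_div_add_atTop 1
  have h4 := h2.mul h3
  rw [mul_one] at h4
  refine h4.congr' ?_
  filter_upwards [eventually_gt_atTop 0] with m hm
  have hm' : (0 : ℝ) < m := by exact_mod_cast hm
  have ha := aa_succ_pos m
  push_cast
  field_simp

/-- the harmonic-type potential bound -/
theorem potential (M : ℕ) :
    ∑ m ∈ range M, (aa (m + 1) - aa m - 1) / ((m : ℝ) + 1) ≤
      (if M = 0 then 0 else (aa M - M) / M) + ∑ m ∈ range M, 1 / ((m : ℝ) + 1) := by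
  induction M with
  | zero => simp
  | succ M ih =>
    rw [Finset.sum_range_succ, Finset.sum_range_succ, if_neg (Nat.succ_ne_zero M)]
    rcases Nat.eq_zero_or_pos M with h0 | h0
    · subst h0
      have h := aa_zero
      simp
      linarith
    · rw [if_neg (by omega)] at ih
      have hM : (0 : ℝ) < M := by exact_mod_cast h0
      have h1 := aa_le M
      have h2 := aa_ge M
      have key : (aa M - M) / M + (aa (M + 1) - aa M - 1) / ((M : ℝ) + 1) ≤
          (aa (M + 1) - ((M + 1 : ℕ) : ℝ)) / ((M + 1 : ℕ) : ℝ) + 1 / ((M : ℝ) + 1) := by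
        push_cast
        have e : (aa (M + 1) - ((M : ℝ) + 1)) / ((M : ℝ) + 1) + 1 / ((M : ℝ) + 1) -
            ((aa M - M) / M + (aa (M + 1) - aa M - 1) / ((M : ℝ) + 1)) =
            (2 * M - aa M) / (M * (M + 1)) := by
          field_simp
          ring
        have e2 : 0 ≤ (2 * M - aa M) / (M * (M + 1)) := by
          apply div_nonneg
          · linarith
          · positivity
        linarith
      linarith

/-- for every `ε > 0` the ratio is greater than `1 - ε` for all even `n ≤ 2M`, with at most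
`(2 + log M) / ε` exceptions -/
theorem exceptions {ε : ℝ} (hε : 0 < ε) {M : ℕ} (hM : 1 ≤ M) :
    (((range M).filter (fun m => rr m ≤ 1 - ε)).card : ℝ) ≤ (2 + Real.log M) / ε := by
  have hM' : (0 : ℝ) < M := by exact_mod_cast hM
  have h1 : ∀ m, rr m ≤ 1 - ε → ε ≤ (aa (m + 1) - aa m - 1) / ((m : ℝ) + 1) := by
    intro m hm
    unfold rr at hm
    have ha := aa_succ_pos m
    rw [div_le_iff₀ ha] at hm
    have h2 := bb_ge m
    have h3 := aa_ge (m + 1)
    push_cast at h3
    have h4 : (0 : ℝ) < (m : ℝ) + 1 := by positivity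
    rw [le_div_iff₀ h4]
    nlinarith
  have h5 : ε * (((range M).filter (fun m => rr m ≤ 1 - ε)).card : ℝ) ≤
      ∑ m ∈ range M, (aa (m + 1) - aa m - 1) / ((m : ℝ) + 1) := by
    calc ε * (((range M).filter (fun m => rr m ≤ 1 - ε)).card : ℝ)
        = ∑ m ∈ (range M).filter (fun m => rr m ≤ 1 - ε), ε := by
          rw [Finset.sum_const, nsmul_eq_mul, mul_comm]
      _ ≤ ∑ m ∈ (range M).filter (fun m => rr m ≤ 1 - ε),
            (aa (m + 1) - aa m - 1) / ((m : ℝ) + 1) := by
          apply Finset.sum_le_sum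
          intro m hm
          exact h1 m (Finset.mem_filter.1 hm).2
      _ ≤ _ := by
          apply Finset.sum_le_sum_of_subset_of_nonneg (Finset.filter_subset _ _)
          intro m _ _
          apply div_nonneg
          · have := aa_succ m
            linarith
          · positivity
  have h6 := potential M
  rw [if_neg (by omega)] at h6
  have h7 : (aa M - M) / M ≤ 1 := by
    rw [div_le_one hM']
    have := aa_le M
    linarith
  have h8 : ∑ m ∈ range M, 1 / ((m : ℝ) + 1) ≤ 1 + Real.log M := by
    have := harmonic_le_one_add_log M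
    unfold harmonic at this
    push_cast at this
    simpa [one_div] using this
  rw [le_div_iff₀ hε, mul_comm]
  linarith

theorem step_of_small {ε : ℝ} {m : ℕ} (hε : 0 < ε) (hm : rr m ≤ 1 - ε) :
    ε * ((m : ℝ) + 1) ≤ aa (m + 1) - aa m - 1 := by
  unfold rr at hm
  have ha := aa_succ_pos m
  rw [div_le_iff₀ ha] at hm
  have h2 := bb_ge m
  have h3 := aa_ge (m + 1)
  push_cast at h3
  nlinarith

/-- the upper limit of the ratio is one -/
theorem frequently_gt {ε : ℝ} (hε : 0 < ε) : ∃ᶠ m : ℕ in atTop, 1 - ε < rr m := by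
  rw [Filter.frequently_atTop]
  intro a
  by_contra hc
  push Not at hc
  obtain ⟨K, hK⟩ := exists_nat_ge (2 / ε)
  set N := max a K with hN
  have h1 : ∀ k : ℕ, aa N - 2 * N + k ≤ aa (N + k) - 2 * ((N + k : ℕ) : ℝ) := by
    intro k
    induction k with
    | zero => simp
    | succ k ih =>
      have h2 := hc (N + k) (le_trans (le_max_left a K) (by omega))
      have h3 := step_of_small hε h2
      have h4 : (K : ℝ) ≤ ((N + k : ℕ) : ℝ) := by
        exact_mod_cast le_trans (le_max_right a K) (by omega)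
      have h5 : 2 ≤ ε * (((N + k : ℕ) : ℝ) + 1) := by
        have h6 : 2 / ε ≤ ((N + k : ℕ) : ℝ) + 1 := by linarith
        rw [div_le_iff₀ hε] at h6
        linarith
      have e : N + (k + 1) = N + k + 1 := by ring
      rw [e]
      push_cast at *
      linarith
  have h2 := h1 (N + 1)
  have h3 := aa_le (N + (N + 1))
  have h4 := aa_ge N
  push_cast at *
  linarith

/-- fewer than `2 / ε` exceptions in every window `M ≤ m < 2M` -/
theorem window {ε : ℝ} (hε : 0 < ε) {M : ℕ} (hM : 1 ≤ M) :
    (((Finset.Ico M (2 * M)).filter (fun m => rr m ≤ 1 - ε)).card : ℝ) < 2 / ε := by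
  have hM' : (0 : ℝ) < M := by exact_mod_cast hM
  have h5 : ε * ((M : ℝ) + 1) *
      (((Finset.Ico M (2 * M)).filter (fun m => rr m ≤ 1 - ε)).card : ℝ) ≤
      ∑ m ∈ Finset.Ico M (2 * M), (aa (m + 1) - aa m - 1) := by
    calc ε * ((M : ℝ) + 1) * (((Finset.Ico M (2 * M)).filter (fun m => rr m ≤ 1 - ε)).card : ℝ)
        = ∑ m ∈ (Finset.Ico M (2 * M)).filter (fun m => rr m ≤ 1 - ε), ε * ((M : ℝ) + 1) := by
          rw [Finset.sum_const, nsmul_eq_mul, mul_comm]
      _ ≤ ∑ m ∈ (Finset.Ico M (2 * M)).filter (fun m => rr m ≤ 1 - ε),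
            (aa (m + 1) - aa m - 1) := by
          apply Finset.sum_le_sum
          intro m hm
          rw [Finset.mem_filter, Finset.mem_Ico] at hm
          have h1 := step_of_small hε hm.2
          have h2 : (M : ℝ) ≤ m := by exact_mod_cast hm.1.1
          nlinarith
      _ ≤ _ := by
          apply Finset.sum_le_sum_of_subset_of_nonneg (Finset.filter_subset _ _)
          intro m _ _
          have := aa_succ m
          linarith
  have h6 : ∑ m ∈ Finset.Ico M (2 * M), (aa (m + 1) - aa m - 1) = aa (2 * M) - aa M - M := by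
    rw [Finset.sum_sub_distrib, Finset.sum_Ico_sub _ (by omega : M ≤ 2 * M)]
    simp [two_mul]
  have h7 := aa_le (2 * M)
  have h8 := aa_ge M
  push_cast at h7
  rw [lt_div_iff₀ hε]
  have h9 : ε * ((M : ℝ) + 1) *
      (((Finset.Ico M (2 * M)).filter (fun m => rr m ≤ 1 - ε)).card : ℝ) < 2 * (M + 1) := by
    linarith
  have h10 : 0 < (M : ℝ) + 1 := by positivity
  by_contra hc
  push Not at hc
  nlinarith

end Pool.Agent.R646.BentF
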